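import Pool.Agent.N483.KM.StmS
import Pool.Agent.R751.MB.Apc
import Pool.Agent.Y427.PV.Rad
import Pool.Agent.Y506.PV.Mix
import Pool.Agent.Y388.PV.Gam

/-!
# Project KM (helper483): the bodies `{x in C | f x <= F}` (helper717)
-/

set_option autoImplicit false

namespace Pool.Agent.N717.KM

open MeasureTheory Set Filter Topology
open scoped ENNReal InnerProductSpace Pointwise
open Pool.Agent.R754.KG (E)
open Pool.Agent.N483.KM
open Pool.Agent.R751.MB (Eu)

theorem radR : Pool.Agent.Y506.PV.S_RAD :=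
  Pool.Agent.Y427.PV.rad Pool.Agent.Y506.PV.Mx.mix Pool.Agent.Y388.PV.gam

section

variable {n : ℕ} {C : Set (E n)} {f : E n →ₗ[ℝ] ℝ}

theorem f_nonneg (hf : Pf C f) {x : E n} (hx : x ∈ C) : 0 ≤ f x := by
  by_cases h : x = 0
  · rw [h, map_zero]
  · exact (hf x hx h).le

theorem lower (hC : PC C) (hf : Pf C f) : ∃ c : ℝ, 0 < c ∧ ∀ x ∈ C, c * ‖x‖ ≤ f x := by
  have hfc : Continuous f := f.continuous_of_finiteDimensional
  have hK : IsCompact (C ∩ Metric.sphere (0 : E n) 1) := (isCompact_sphere _ _).inter_left hC.closed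
  rcases (C ∩ Metric.sphere (0 : E n) 1).eq_empty_or_nonempty with he | hne
  · refine ⟨1, one_pos, fun x hx => ?_⟩
    by_cases h : x = 0
    · rw [h, map_zero, norm_zero, mul_zero]
    · exfalso
      have h1 : ‖x‖⁻¹ • x ∈ C ∩ Metric.sphere (0 : E n) 1 := by
        refine ⟨hC.cone _ (by positivity) x hx, ?_⟩
        rw [mem_sphere_zero_iff_norm, norm_smul, norm_inv, norm_norm,
          inv_mul_cancel₀ (norm_ne_zero_iff.2 h)]
      rw [he] at h1
      exact h1
  · obtain ⟨x0, hx0, hmin⟩ := hK.exists_isMinOn hne hfc.continuousOn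
    have hx00 : x0 ≠ 0 := by
      rintro rfl
      have := hx0.2
      rw [mem_sphere_zero_iff_norm, norm_zero] at this
      exact zero_ne_one this
    refine ⟨f x0, hf x0 hx0.1 hx00, fun x hx => ?_⟩
    by_cases h : x = 0
    · rw [h, map_zero, norm_zero, mul_zero]
    · have hn : 0 < ‖x‖ := norm_pos_iff.2 h
      have h1 : ‖x‖⁻¹ • x ∈ C ∩ Metric.sphere (0 : E n) 1 := by
        refine ⟨hC.cone _ (by positivity) x hx, ?_⟩
        rw [mem_sphere_zero_iff_norm, norm_smul, norm_inv, norm_norm,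
          inv_mul_cancel₀ (norm_ne_zero_iff.2 h)]
      have h2 : f x0 ≤ f (‖x‖⁻¹ • x) := hmin h1
      rw [map_smul, smul_eq_mul, inv_mul_eq_div, le_div_iff₀ hn] at h2
      exact h2

theorem K_closed (hC : PC C) (F : ℝ) : IsClosed {x | x ∈ C ∧ f x ≤ F} :=
  hC.closed.inter (isClosed_le f.continuous_of_finiteDimensional continuous_const)

theorem K_bdd (hC : PC C) (hf : Pf C f) (F : ℝ) :
    Bornology.IsBounded {x | x ∈ C ∧ f x ≤ F} := by
  obtain ⟨c, hc, h⟩ := lower hC hf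
  rw [isBounded_iff_forall_norm_le]
  refine ⟨F / c, fun x hx => ?_⟩
  rw [le_div_iff₀ hc, mul_comm]
  exact (h x hx.1).trans hx.2

theorem K_int (hC : PC C) {F : ℝ} (hF : 0 < F) :
    (interior {x | x ∈ C ∧ f x ≤ F}).Nonempty := by
  obtain ⟨x0, hx0⟩ := hC.int
  have hfc : Continuous f := f.continuous_of_finiteDimensional
  set ε : ℝ := F / (2 * (|f x0| + 1)) with hε
  have hε0 : 0 < ε := by positivity
  have hop : IsOpen ((ε • interior C) ∩ {x | f x < F}) :=
    (isOpen_interior.smul₀ hε0.ne').inter (isOpen_lt hfc continuous_const)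
  refine ⟨ε • x0, ?_⟩
  rw [mem_interior]
  refine ⟨_, ?_, hop, ?_, ?_⟩
  · rintro x ⟨hx1, hx2⟩
    obtain ⟨y, hy, rfl⟩ := hx1
    exact ⟨hC.cone ε hε0.le y (interior_subset hy), le_of_lt hx2⟩
  · exact smul_mem_smul_set hx0
  · change f (ε • x0) < F
    rw [map_smul, smul_eq_mul]
    have h1 : ε * f x0 ≤ ε * (|f x0| + 1) :=
      mul_le_mul_of_nonneg_left (by linarith [le_abs_self (f x0)]) hε0.le
    have h2 : ε * (|f x0| + 1) = F / 2 := by
      rw [hε]
      field_simp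
    linarith

open Classical in
/-- the homogeneous function -/
noncomputable def Ph (C : Set (E n)) (f : E n →ₗ[ℝ] ℝ) (F : ℝ) (x : E n) : ℝ≥0∞ :=
  if x ∈ C then ENNReal.ofReal (f x / F) else ⊤

theorem Ph_in {F : ℝ} {x : E n} (h : x ∈ C) : Ph C f F x = ENNReal.ofReal (f x / F) := by
  unfold Ph
  rw [if_pos h]

theorem Ph_out {F : ℝ} {x : E n} (h : x ∉ C) : Ph C f F x = ⊤ := by
  unfold Ph
  rw [if_neg h]

theorem Ph_set {F : ℝ} (hF : 0 < F) : {x | Ph C f F x ≤ 1} = {x | x ∈ C ∧ f x ≤ F} := by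
  ext x
  by_cases h : x ∈ C
  · have e : x ∈ {x | Ph C f F x ≤ 1} ↔ Ph C f F x ≤ 1 := Iff.rfl
    have e' : x ∈ {x | x ∈ C ∧ f x ≤ F} ↔ (x ∈ C ∧ f x ≤ F) := Iff.rfl
    rw [e, e', Ph_in h, ENNReal.ofReal_le_one, div_le_one hF]
    exact ⟨fun h1 => ⟨h, h1⟩, fun h1 => h1.2⟩
  · have e : x ∈ {x | Ph C f F x ≤ 1} ↔ Ph C f F x ≤ 1 := Iff.rfl
    have e' : x ∈ {x | x ∈ C ∧ f x ≤ F} ↔ (x ∈ C ∧ f x ≤ F) := Iff.rfl
    rw [e, e', Ph_out h]
    constructor
    · intro h1
      exact absurd h1 (not_le.2 ENNReal.one_lt_top)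
    · intro h1
      exact absurd h1.1 h

theorem Ph_hom (hC : PC C) (hf : Pf C f) {F : ℝ} (hF : 0 < F) :
    Pool.Agent.Y506.PV.Hom 1 (Ph C f F) where
  meas := by
    have hfc : Continuous f := f.continuous_of_finiteDimensional
    exact Measurable.ite hC.closed.measurableSet
      ((hfc.measurable.div_const F).ennreal_ofReal) measurable_const
  hom := by
    intro r x hr
    rw [Real.rpow_one]
    by_cases h : x ∈ C
    · have h' : r • x ∈ C := hC.cone r hr.le x h
      rw [Ph_in h, Ph_in h', map_smul, smul_eq_mul, mul_div_assoc, ENNReal.ofReal_mul hr.le]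
    · have h' : r • x ∉ C := by
        intro h1
        apply h
        have h2 := hC.cone r⁻¹ (by positivity) _ h1
        rwa [smul_smul, inv_mul_cancel₀ hr.ne', one_smul] at h2
      rw [Ph_out h, Ph_out h', ENNReal.mul_top]
      exact (ENNReal.ofReal_pos.2 hr).ne'
  bdd := by
    rw [Ph_set hF]
    exact K_bdd hC hf F
  vol := by
    rw [Ph_set hF]
    exact (isOpen_interior.measure_pos volume (K_int hC hF)).trans_le
      (measure_mono interior_subset)

theorem wPhi_eq (hf : Pf C f) {F : ℝ} (hF : 0 < F) :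
    Pool.Agent.Y506.PV.wPhi (Ph C f F) = wc C (F⁻¹ • f) := by
  funext x
  unfold Pool.Agent.Y506.PV.wPhi wc
  by_cases h : x ∈ C
  · rw [Ph_in h, if_neg ENNReal.ofReal_ne_top, Set.indicator_of_mem h,
      ENNReal.toReal_ofReal (div_nonneg (f_nonneg hf h) hF.le), LinearMap.smul_apply,
      smul_eq_mul, inv_mul_eq_div]
  · rw [Ph_out h, if_pos rfl, Set.indicator_of_notMem h]

end

theorem t_GRAD : S_GRAD := by
  intro A δ hA hδ
  obtain ⟨κ0, hκ0, hapc⟩ := Pool.Agent.R751.MB.apc A (δ / 6) hA (by positivity)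
  obtain ⟨κ', hκ', hrad⟩ := radR 1 δ κ0 le_rfl hδ hκ0
  refine ⟨κ', hκ', fun n C f F hn hC hf hF => ?_⟩
  have hpf : Pf C (F⁻¹ • f) := by
    intro x hx h0
    rw [LinearMap.smul_apply, smul_eq_mul]
    exact mul_pos (by positivity) (hf x hx h0)
  refine ⟨Metric.isCompact_of_isClosed_isBounded (K_closed hC.pc F) (K_bdd hC.pc hf F),
    hC.pc.conv.inter (convex_halfSpace_le f.isLinear F), K_int hC.pc hF, ?_⟩
  have h1 := (hrad n (Ph C f F) hn (Ph_hom hC.pc hf hF)).2.2
  rw [Ph_set hF] at h1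
  apply h1
  rw [wPhi_eq hf hF]
  exact hapc n _ (hC.ap _ hpf)

end Pool.Agent.N717.KM
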