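import Pool.Agent.N483.KM.StmO

/-!
Part O3 of project KM (helper717; statement and proof of helper483): the lift of an intersection of
generalised Orlicz balls to a section of maximal volume.
-/

set_option autoImplicit false

namespace Pool.Agent.N717.KM

open MeasureTheory Set Filter Topology
open scoped ENNReal
open Pool.Agent.R754.KG (E un sl Rv)
open Pool.Agent.R755.KF (CB)
open Pool.Agent.N483.KM

section

variable {r n m : ℕ} {V : Fin r → Fin n → ℝ → ℝ}

/-- the sums -/
def Sm (V : Fin r → Fin n → ℝ → ℝ) (j : Fin r) (x : E n) : ℝ := ∑ i, V j i (x i)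

lemma Sm_cont (hV : ∀ j i, ConvexOn ℝ univ (V j i)) (j : Fin r) : Continuous (Sm V j) := by
  unfold Sm
  refine continuous_finsetSum _ fun i _ => ?_
  have h1 : Continuous (V j i) := (hV j i).locallyLipschitz.continuous
  have h2 : Continuous (fun x : E n => x i) := by fun_prop
  exact h1.comp h2

lemma Sm_conv (hV : ∀ j i, ConvexOn ℝ univ (V j i)) (j : Fin r) {x y : E n} {a b : ℝ}
    (ha : 0 ≤ a) (hb : 0 ≤ b) (hab : a + b = 1) :
    Sm V j (a • x + b • y) ≤ a * Sm V j x + b * Sm V j y := by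
  unfold Sm
  rw [Finset.mul_sum, Finset.mul_sum, ← Finset.sum_add_distrib]
  refine Finset.sum_le_sum fun i _ => ?_
  have := (hV j i).2 (mem_univ (x i)) (mem_univ (y i)) ha hb hab
  simpa using this

/-- the sublevel sets of a subfamily -/
def Bt (V : Fin r → Fin n → ℝ → ℝ) (idx : Fin m → Fin r) (t : Fin m → ℝ) : Set (E n) :=
  {x | ∀ a, Sm V (idx a) x ≤ t a}

lemma sum_idx {l : Fin r → ℝ} {idx : Fin m → Fin r} (hinj : Function.Injective idx)
    (hr : ∀ j, l j ≠ 0 → ∃ a, idx a = j) (f : Fin r → ℝ) :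
    ∑ a, l (idx a) * f (idx a) = ∑ j, l j * f j := by
  refine Finset.sum_of_injOn idx hinj.injOn (fun _ _ => Finset.mem_coe.2 (Finset.mem_univ _))
    ?_ (fun _ _ => rfl)
  intro j _ hj
  have : l j = 0 := by
    by_contra h
    obtain ⟨a, ha⟩ := hr j h
    exact hj ⟨a, Finset.mem_coe.2 (Finset.mem_univ _), ha⟩
  rw [this, zero_mul]

lemma claim1 {l e : Fin r → ℝ} {idx : Fin m → Fin r} {t : Fin m → ℝ}
    (h : ∀ s : Fin r → ℝ, ∑ j, l j * s j ≤ ∑ j, l j * e j → volume (SL V s) ≤ volume (SL V e))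
    (hinj : Function.Injective idx) (hr : ∀ j, l j ≠ 0 → ∃ a, idx a = j)
    (ht : ∑ a, l (idx a) * t a ≤ ∑ a, l (idx a) * e (idx a)) :
    volume (Bt V idx t) ≤ volume (SL V e) := by
  classical
  let s : ℕ → Fin r → ℝ := fun M j => if h : ∃ a, idx a = j then t h.choose else (M : ℝ)
  have hs : ∀ M a, s M (idx a) = t a := by
    intro M a
    have h1 : ∃ a', idx a' = idx a := ⟨a, rfl⟩
    have h2 : h1.choose = a := hinj h1.choose_spec
    simp only [s]
    rw [dif_pos h1, h2]
  have hs' : ∀ M j, (¬ ∃ a, idx a = j) → s M j = M := by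
    intro M j hj
    simp only [s]
    rw [dif_neg hj]
  have hle : ∀ M, volume (SL V (s M)) ≤ volume (SL V e) := by
    intro M
    apply h
    rw [← sum_idx hinj hr, ← sum_idx hinj hr]
    simpa only [hs] using ht
  have hmono : Monotone fun M => SL V (s M) := by
    intro M M' hM x hx j
    refine (hx j).trans ?_
    by_cases hj : ∃ a, idx a = j
    · obtain ⟨a, rfl⟩ := hj
      rw [hs, hs]
    · rw [hs' M j hj, hs' M' j hj]
      exact_mod_cast hM
  have hsub : Bt V idx t ⊆ ⋃ M, SL V (s M) := by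
    intro x hx
    rw [mem_iUnion]
    refine ⟨⌈∑ j, |Sm V j x|⌉₊, fun j => ?_⟩
    by_cases hj : ∃ a, idx a = j
    · obtain ⟨a, rfl⟩ := hj
      rw [hs]
      exact hx a
    · rw [hs' _ j hj]
      refine le_trans ?_ (Nat.le_ceil _)
      exact (le_abs_self _).trans (Finset.single_le_sum (f := fun j => |Sm V j x|)
        (fun _ _ => abs_nonneg _) (Finset.mem_univ j))
  refine (measure_mono hsub).trans ?_
  rw [hmono.measure_iUnion]
  exact iSup_le hle

lemma Bt_convex (hV : ∀ j i, ConvexOn ℝ univ (V j i)) (idx : Fin m → Fin r) (t : Fin m → ℝ) :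
    Convex ℝ (Bt V idx t) := by
  intro x hx y hy a b ha hb hab c
  have h1 := Sm_conv hV (idx c) (x := x) (y := y) ha hb hab
  have h2 : a * Sm V (idx c) x ≤ a * t c := mul_le_mul_of_nonneg_left (hx c) ha
  have h3 : b * Sm V (idx c) y ≤ b * t c := mul_le_mul_of_nonneg_left (hy c) hb
  have h4 : a * t c + b * t c = t c := by rw [← add_mul, hab, one_mul]
  linarith

lemma claim2 {l e : Fin r → ℝ} {idx : Fin m → Fin r}
    (hV : ∀ j i, ConvexOn ℝ univ (V j i)) (hb : Bornology.IsBounded (SL V e))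
    (hx : ∃ x : E n, ∀ j, ∑ i, V j i (x i) < e j)
    (h : ∀ s : Fin r → ℝ, ∑ j, l j * s j ≤ ∑ j, l j * e j → volume (SL V s) ≤ volume (SL V e))
    (hinj : Function.Injective idx) (hr : ∀ j, l j ≠ 0 → ∃ a, idx a = j) :
    Bt V idx (fun a => e (idx a)) = SL V e := by
  have hsub : SL V e ⊆ Bt V idx (fun a => e (idx a)) := fun x hx a => hx (idx a)
  refine Subset.antisymm ?_ hsub
  intro x hxB
  by_contra hxS
  have hvol := claim1 (t := fun a => e (idx a)) h hinj hr le_rfl
  have hfin : volume (SL V e) ≠ ⊤ := hb.measure_lt_top.ne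
  obtain ⟨x0, hx0⟩ := hx
  -- the interior of the bigger set is nonempty
  have hopen : IsOpen {y : E n | ∀ j, Sm V j y < e j} := by
    rw [Set.ofPred_forall]
    exact isOpen_iInter_of_finite fun j => isOpen_lt (Sm_cont hV j) continuous_const
  have hint : (interior (Bt V idx (fun a => e (idx a)))).Nonempty := by
    refine ⟨x0, mem_interior.2 ⟨{y : E n | ∀ j, Sm V j y < e j}, ?_, hopen, hx0⟩⟩
    intro y hy a
    exact (hy (idx a)).le
  obtain ⟨j0, hj0⟩ : ∃ j0, e j0 < Sm V j0 x := by
    by_contra hc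
    push Not at hc
    exact hxS hc
  have hU : IsOpen {y : E n | e j0 < Sm V j0 y} := isOpen_lt continuous_const (Sm_cont hV j0)
  have hcl : x ∈ closure (interior (Bt V idx (fun a => e (idx a)))) := by
    rw [(Bt_convex hV idx _).closure_interior_eq_closure_of_nonempty_interior hint]
    exact subset_closure hxB
  have hne : ({y : E n | e j0 < Sm V j0 y} ∩ interior (Bt V idx (fun a => e (idx a)))).Nonempty :=
    mem_closure_iff.1 hcl _ hU hj0
  have hpos : 0 < volume ({y : E n | e j0 < Sm V j0 y} ∩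
      interior (Bt V idx (fun a => e (idx a)))) :=
    (hU.inter isOpen_interior).measure_pos volume hne
  have hdis : Disjoint (SL V e) ({y : E n | e j0 < Sm V j0 y} ∩
      interior (Bt V idx (fun a => e (idx a)))) := by
    rw [Set.disjoint_left]
    rintro y hy ⟨hy1, -⟩
    exact absurd (hy j0) (not_le.2 hy1)
  have h1 : volume (SL V e) + volume ({y : E n | e j0 < Sm V j0 y} ∩
      interior (Bt V idx (fun a => e (idx a)))) ≤ volume (SL V e) := by
    rw [← measure_union hdis (hU.inter isOpen_interior).measurableSet]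
    refine (measure_mono ?_).trans hvol
    exact union_subset hsub (inter_subset_right.trans interior_subset)
  have h2 : volume (SL V e) + 0 < volume (SL V e) + volume ({y : E n | e j0 < Sm V j0 y} ∩
      interior (Bt V idx (fun a => e (idx a)))) :=
    ENNReal.add_lt_add_left hfin hpos
  rw [add_zero] at h2
  exact absurd h1 (not_le.2 h2)

/-- the lifted body -/
def Lb (V : Fin r → Fin n → ℝ → ℝ) (idx : Fin m → Fin r) (l : Fin r → ℝ) (F : ℝ) :
    Set (E n × E m) :=
  {z | (∀ a, Sm V (idx a) z.1 ≤ z.2 a) ∧ ∑ a, l (idx a) * z.2 a ≤ F}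

lemma Lb_convex (hV : ∀ j i, ConvexOn ℝ univ (V j i)) (idx : Fin m → Fin r) (l : Fin r → ℝ)
    (F : ℝ) : Convex ℝ (Lb V idx l F) := by
  rintro ⟨x, t⟩ ⟨hx, hx'⟩ ⟨y, u⟩ ⟨hy, hy'⟩ a b ha hb hab
  refine ⟨fun c => ?_, ?_⟩
  · have h1 := Sm_conv hV (idx c) (x := x) (y := y) ha hb hab
    have h2 : a * Sm V (idx c) x ≤ a * t c := mul_le_mul_of_nonneg_left (hx c) ha
    have h3 : b * Sm V (idx c) y ≤ b * u c := mul_le_mul_of_nonneg_left (hy c) hb
    have h4 : (a • (x, t) + b • (y, u)).2 c = a * t c + b * u c := by simp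
    have h5 : (a • (x, t) + b • (y, u)).1 = a • x + b • y := by simp
    rw [h4, h5]
    linarith
  · have h4 : ∀ c, (a • (x, t) + b • (y, u)).2 c = a * t c + b * u c := fun c => by simp
    simp only [h4]
    have h6 : ∑ c, l (idx c) * (a * t c + b * u c) =
        a * ∑ c, l (idx c) * t c + b * ∑ c, l (idx c) * u c := by
      rw [Finset.mul_sum, Finset.mul_sum, ← Finset.sum_add_distrib]
      exact Finset.sum_congr rfl fun c _ => by ring
    rw [h6]
    have h2 : a * ∑ c, l (idx c) * t c ≤ a * F := mul_le_mul_of_nonneg_left hx' ha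
    have h3 : b * ∑ c, l (idx c) * u c ≤ b * F := mul_le_mul_of_nonneg_left hy' hb
    have h7 : a * F + b * F = F := by rw [← add_mul, hab, one_mul]
    linarith

lemma Lb_closed (hV : ∀ j i, ConvexOn ℝ univ (V j i)) (idx : Fin m → Fin r) (l : Fin r → ℝ)
    (F : ℝ) : IsClosed (Lb V idx l F) := by
  have h2 : ∀ a, Continuous fun z : E n × E m => z.2 a := fun a => by fun_prop
  have e : Lb V idx l F = (⋂ a, {z : E n × E m | Sm V (idx a) z.1 ≤ z.2 a}) ∩
      {z : E n × E m | ∑ a, l (idx a) * z.2 a ≤ F} := by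
    ext z
    simp [Lb]
  rw [e]
  refine (isClosed_iInter fun a => isClosed_le ((Sm_cont hV (idx a)).comp continuous_fst)
    (h2 a)).inter (isClosed_le ?_ continuous_const)
  exact continuous_finsetSum _ fun a _ => continuous_const.mul (h2 a)

lemma bdd_box (C : Fin m → ℝ) : Bornology.IsBounded {t : E m | ∀ a, 0 ≤ t a ∧ t a ≤ C a} := by
  rw [Metric.isBounded_iff_subset_closedBall 0]
  refine ⟨Real.sqrt (∑ a, C a ^ 2), fun t ht => ?_⟩
  rw [mem_closedBall_zero_iff, EuclideanSpace.norm_eq]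
  apply Real.sqrt_le_sqrt
  refine Finset.sum_le_sum fun a _ => ?_
  rw [Real.norm_eq_abs, sq_abs]
  exact pow_le_pow_left₀ (ht a).1 (ht a).2 2

end

theorem t_OLF (h1 : S_OBD) (h2 : S_OSUP) : S_OLF := by
  classical
  intro r n V e hn hV hV0 hb hx
  obtain ⟨l, hl0, ⟨j₁, hj₁⟩, hl⟩ := h2 r n V e hn hV hb hx
  let I : Finset (Fin r) := Finset.univ.filter fun j => l j ≠ 0
  let m := I.card
  let idx : Fin m → Fin r := I.orderEmbOfFin rfl
  have hinj : Function.Injective idx := (I.orderEmbOfFin rfl).injective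
  have hmem : ∀ a, idx a ∈ I := fun a => I.orderEmbOfFin_mem rfl a
  have hrg : ∀ j, l j ≠ 0 → ∃ a, idx a = j := by
    intro j hj
    have h3 : j ∈ I := Finset.mem_filter.2 ⟨Finset.mem_univ _, hj⟩
    have h4 : j ∈ Set.range (I.orderEmbOfFin rfl) := by
      rw [Finset.range_orderEmbOfFin]
      exact h3
    exact h4
  have hlpos : ∀ a, 0 < l (idx a) := fun a =>
    lt_of_le_of_ne (hl0 _) (Ne.symm (Finset.mem_filter.1 (hmem a)).2)
  have hmr : m ≤ r := (Finset.card_le_univ I).trans (by simp)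
  set F : ℝ := ∑ a, l (idx a) * e (idx a) with hF
  let ts : E m := WithLp.toLp 2 fun a => e (idx a)
  have hts : ∀ a, ts a = e (idx a) := fun a => rfl
  have hB := claim2 hV hb hx hl hinj hrg
  have hSm : ∀ j x, 0 ≤ Sm V j x := fun j x => Finset.sum_nonneg fun i _ => hV0 j i _
  have hfin : volume (SL V e) ≠ ⊤ := hb.measure_lt_top.ne
  have hslts : sl (Lb V idx l F) ts = SL V e := by
    rw [← hB]
    ext x
    constructor
    · rintro ⟨h3, -⟩ a
      exact h3 a
    · intro h3
      exact ⟨h3, le_rfl⟩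
  have hx0 := hx
  obtain ⟨x0, hx0⟩ := hx0
  have ⟨a₁, ha₁⟩ := hrg j₁ hj₁
  refine ⟨m, Lb V idx l F, ts, fun i u => ∑ a, l (idx a) * V (idx a) i u, F, hmr, ⟨?_, ?_, ?_⟩,
    ?_, hslts, ?_, ?_⟩
  · exact Lb_convex hV idx l F
  · refine Metric.isCompact_of_isClosed_isBounded (Lb_closed hV idx l F) ?_
    -- boundedness
    let V' : Fin m → Fin n → ℝ → ℝ := fun a => V (idx a)
    have hbd : Bornology.IsBounded (SL V' (fun a => F / l (idx a))) := by
      apply h1 m n V' (fun a => e (idx a)) _ (fun a i => hV (idx a) i)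
      · have : SL V' (fun a => e (idx a)) = SL V e := hB
        rw [this]
        exact hb
      · exact ⟨x0, fun a => (hx0 (idx a)).le⟩
    refine (hbd.prod (bdd_box fun a => F / l (idx a))).subset ?_
    rintro ⟨x, t⟩ ⟨h3, h4⟩
    have ht0 : ∀ a, 0 ≤ t a := fun a => (hSm _ _).trans (h3 a)
    have ht1 : ∀ a, t a ≤ F / l (idx a) := by
      intro a
      rw [le_div_iff₀ (hlpos a), mul_comm]
      exact (Finset.single_le_sum (f := fun a => l (idx a) * t a)
        (fun b _ => mul_nonneg (hlpos b).le (ht0 b)) (Finset.mem_univ a)).trans h4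
    exact ⟨fun a => (h3 a).trans (ht1 a), fun a => ⟨ht0 a, ht1 a⟩⟩
  · -- positive volume
    have h2c : ∀ a, Continuous fun z : E n × E m => z.2 a := fun a => by fun_prop
    have hO : IsOpen ((⋂ a, {z : E n × E m | Sm V (idx a) z.1 < z.2 a}) ∩
        {z : E n × E m | ∑ a, l (idx a) * z.2 a < F}) := by
      refine (isOpen_iInter_of_finite fun a => isOpen_lt
        ((Sm_cont hV (idx a)).comp continuous_fst) (h2c a)).inter (isOpen_lt ?_ continuous_const)
      exact continuous_finsetSum _ fun a _ => continuous_const.mul (h2c a)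
    have hne : ((⋂ a, {z : E n × E m | Sm V (idx a) z.1 < z.2 a}) ∩
        {z : E n × E m | ∑ a, l (idx a) * z.2 a < F}).Nonempty := by
      refine ⟨(x0, WithLp.toLp 2 fun a => (Sm V (idx a) x0 + e (idx a)) / 2), ?_, ?_⟩
      · rw [mem_iInter]
        intro a
        have h3 : Sm V (idx a) x0 < e (idx a) := hx0 (idx a)
        change Sm V (idx a) x0 < (Sm V (idx a) x0 + e (idx a)) / 2
        linarith
      · change ∑ a, l (idx a) * ((Sm V (idx a) x0 + e (idx a)) / 2) < F
        rw [hF]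
        have h3 : ∀ a, Sm V (idx a) x0 < e (idx a) := fun a => hx0 (idx a)
        refine Finset.sum_lt_sum (fun a _ => ?_) ⟨a₁, Finset.mem_univ _, ?_⟩
        · apply mul_le_mul_of_nonneg_left _ (hlpos a).le
          have := h3 a
          linarith
        · apply mul_lt_mul_of_pos_left _ (hlpos a₁)
          have := h3 a₁
          linarith
    refine (hO.measure_pos volume hne).trans_le (measure_mono ?_)
    rintro z ⟨hz1, hz2⟩
    rw [mem_iInter] at hz1
    exact ⟨fun a => (hz1 a).le, (le_of_lt hz2 : _ ≤ F)⟩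
  · -- maximality
    intro t
    unfold Rv
    rw [hslts]
    apply ENNReal.toReal_mono hfin
    by_cases ht : ∑ a, l (idx a) * t a ≤ F
    · refine le_trans (measure_mono ?_) (claim1 (t := fun a => t a) hl hinj hrg ht)
      rintro x ⟨h3, -⟩ a
      exact h3 a
    · have : sl (Lb V idx l F) t = ∅ := by
        rw [Set.eq_empty_iff_forall_notMem]
        rintro x ⟨-, h4⟩
        exact ht h4
      rw [this, measure_empty]
      exact zero_le
  · intro i
    refine ⟨convex_univ, fun x _ y _ a b ha hb hab => ?_⟩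
    simp only [smul_eq_mul]
    rw [Finset.mul_sum, Finset.mul_sum, ← Finset.sum_add_distrib]
    refine Finset.sum_le_sum fun c _ => ?_
    have h3 := (hV (idx c) i).2 (mem_univ x) (mem_univ y) ha hb hab
    simp only [smul_eq_mul] at h3
    have h4 := mul_le_mul_of_nonneg_left h3 (hlpos c).le
    linarith
  · -- the projection
    have hW : ∀ x : E n, ∑ i, ∑ a, l (idx a) * V (idx a) i (x i) =
        ∑ a, l (idx a) * Sm V (idx a) x := by
      intro x
      rw [Finset.sum_comm]
      refine Finset.sum_congr rfl fun a _ => ?_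
      rw [Sm, Finset.mul_sum]
    ext x
    rw [Set.mem_ofPred_eq, hW]
    constructor
    · rintro ⟨⟨x', t⟩, ⟨h3, h4⟩, rfl⟩
      refine (Finset.sum_le_sum fun a _ => ?_).trans h4
      exact mul_le_mul_of_nonneg_left (h3 a) (hlpos a).le
    · intro h3
      exact ⟨(x, WithLp.toLp 2 fun a => Sm V (idx a) x), ⟨fun a => le_rfl, h3⟩, rfl⟩

end Pool.Agent.N717.KM
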